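import Pool.Agent.H310.CH.Ext
import Pool.Agent.H310.CH.Comb
import Pool.Agent.H310.CH.QuadSign

/-!
# Maximal Chebyshev hyperelliptic curves in characteristic `1 mod 4` (Q1 of MP_b95a42_nt)

`φ_d` is the polynomial with `φ_d(t + 1/t) = t^d + t^(-d)`, i.e. Mathlib's Dickson polynomial
`Polynomial.dickson 1 1 d`, and `H_d` is the smooth complete curve `y² = φ_d(x)`.
-/

namespace Pool.Agent.Results.MP_b95a42_nt.Classification

open Finset Pool.Agent.H310.CH

/-- The number of rational points over the finite field `F` (of odd characteristic prime to `d`)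
of the smooth projective model `H_d` of `y² = φ_d(x)`: the affine points, and one point at infinity
for odd `d`, two for even `d` (`φ_d` is monic). -/
noncomputable def numPoints (d : ℕ) (F : Type) [Field F] : ℕ :=
  Nat.card {P : F × F // P.2 ^ 2 = (Polynomial.dickson 1 (1 : F) d).eval P.1} +
    if d % 2 = 1 then 1 else 2

/-- `H_d`, of genus `g = ⌊(d - 1) / 2⌋`, is maximal in characteristic `p`: over some field with
`p ^ (2 f)` elements, `f ≥ 1`, its number of points is `p ^ (2 f) + 1 + 2 g p ^ f`. -/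
def IsMaximalInChar (d p : ℕ) : Prop :=
  ∃ (f : ℕ) (F : Type) (_ : Field F), 1 ≤ f ∧ Nat.card F = p ^ (2 * f) ∧
    numPoints d F = p ^ (2 * f) + 1 + 2 * ((d - 1) / 2) * p ^ f

section

variable {F E : Type} [Field F] [Fintype F] [DecidableEq F] [Field E] [Fintype E] [DecidableEq E]
  [Algebra F E] {Q : ℕ}

lemma card_affine (hF : ringChar F ≠ 2) (g : F → F) :
    (Nat.card {P : F × F // P.2 ^ 2 = g P.1} : ℂ) = Fintype.card F + ∑ x, qc F (g x) := by
  classical
  have h1 : Nat.card {P : F × F // P.2 ^ 2 = g P.1} =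
      ∑ x : F, (univ.filter (fun y : F => y ^ 2 = g x)).card := by
    rw [Nat.card_eq_fintype_card, Fintype.card_subtype, card_filter, ← univ_product_univ,
      sum_product]
    refine sum_congr rfl fun x _ => ?_
    rw [card_filter]
  have h2 : ∀ u : F, (((univ.filter (fun y : F => y ^ 2 = u)).card : ℕ) : ℂ) = 1 + qc F u := by
    intro u
    have h1 := quadraticChar_card_sqrts hF u
    have h2 : ({x : F | x ^ 2 = u} : Set F).toFinset = univ.filter (fun t : F => t ^ 2 = u) := by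
      ext x; simp
    rw [h2] at h1
    have h3 : (((univ.filter (fun t : F => t ^ 2 = u)).card : ℤ) : ℂ) = 1 + qc F u := by
      rw [h1, qc_apply]; push_cast; ring
    rw [← h3, Int.cast_natCast]
  rw [h1, Nat.cast_sum, sum_congr rfl fun x _ => h2 (g x), sum_add_distrib]
  simp

/-- the Dickson polynomial at `t + 1 / t` -/
lemma dickson_RR (hQ : Fintype.card F = Q) (d : ℕ) {t : Eˣ} (ht : t ∈ T1 E Q ∨ t ∈ T2 E Q) :
    (Polynomial.dickson 1 (1 : F) d).eval (RR F E ((t : E) + (t⁻¹ : Eˣ))) =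
      RR F E (((t ^ d : Eˣ) : E) + (((t ^ d)⁻¹ : Eˣ) : E)) := by
  obtain ⟨x, hx⟩ := mem_of_T hQ ht
  rw [← hx, RR_alg]
  have h1 : algebraMap F E ((Polynomial.dickson 1 (1 : F) d).eval x) =
      ((t ^ d : Eˣ) : E) + (((t ^ d)⁻¹ : Eˣ) : E) := by
    have h2 : algebraMap F E ((Polynomial.dickson 1 (1 : F) d).eval x) =
        (Polynomial.dickson 1 (1 : E) d).eval (algebraMap F E x) := by
      rw [← Polynomial.eval_map_apply, Polynomial.map_dickson, map_one]
    rw [h2, hx, Polynomial.dickson_one_one_eval_add_inv _ _ (by simp) d]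
    rw [← inv_pow, Units.val_pow_eq_pow_val, Units.val_pow_eq_pow_val]
  rw [← h1, RR_alg]

lemma key_sum (hQ : Fintype.card F = Q) (hE : Fintype.card E = Q ^ 2) (hodd : Q % 2 = 1)
    (d : ℕ) : 2 * ∑ x : F, qc F ((Polynomial.dickson 1 (1 : F) d).eval x) =
      ∑ t ∈ T1 E Q, HH F (t ^ d) + ∑ t ∈ T2 E Q, HH F (t ^ d) := by
  rw [two_mul_sum (E := E) hQ hE hodd (fun x => qc F ((Polynomial.dickson 1 (1 : F) d).eval x))]
  congr 1
  · refine sum_congr rfl fun t ht => ?_
    rw [dickson_RR hQ d (Or.inl ht)]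
    rfl
  · refine sum_congr rfl fun t ht => ?_
    rw [dickson_RR hQ d (Or.inr ht)]
    rfl

end

/-- the quadratic Gauss sum over a field with `p ^ (2 f)` elements, `p ≡ 1 (mod 4)` -/
lemma gauss_sign {p f : ℕ} [Fact p.Prime] (hp4 : p % 4 = 1) (hf : 1 ≤ f) {F : Type} [Field F]
    [Fintype F] [DecidableEq F] [Algebra (ZMod p) F] (hF : Fintype.card F = (p ^ f) ^ 2) {ζ : ℂ}
    (hζ : IsPrimitiveRoot ζ p) :
    gaussSum (qc F) (psi hζ.pow_eq_one : AddChar F ℂ) = -((p ^ f : ℕ) : ℂ) := by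
  classical
  have hp : p.Prime := Fact.out
  have hfr : Module.finrank (ZMod p) F = 2 * f := by
    have h1 := card_L (p := p) (L := F)
    rw [hF, ← pow_mul] at h1
    have := Nat.pow_right_injective hp.two_le h1
    omega
  have hdvd : Module.finrank (ZMod p) (GaloisField p f) ∣ Module.finrank (ZMod p) F := by
    rw [GaloisField.finrank p (by omega), hfr]
    exact Dvd.intro_left 2 rfl
  obtain ⟨g⟩ := FiniteField.nonempty_algHom_of_finrank_dvd hdvd
  let _ : Algebra (GaloisField p f) F := g.toRingHom.toAlgebra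
  have _ : IsScalarTower (ZMod p) (GaloisField p f) F :=
    IsScalarTower.of_algebraMap_eq' (Subsingleton.elim _ _)
  have _ : Fintype (GaloisField p f) := Fintype.ofFinite _
  have hc : Fintype.card (GaloisField p f) = p ^ f := by
    rw [← Nat.card_eq_fintype_card, GaloisField.card p f (by omega)]
  exact gauss_quad (F := GaloisField p f) (E := F) hc hF
    (by rw [Nat.pow_mod, hp4, one_pow]; norm_num) hζ

/-- characters of order `8`, for `p ≡ 5 (mod 8)` -/
lemma KK_order_eight {p f : ℕ} [Fact p.Prime] (hp8 : p % 8 = 5) (hf : 1 ≤ f) {F : Type} [Field F]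
    [Fintype F] [DecidableEq F] [Algebra (ZMod p) F] (hF : Fintype.card F = (p ^ f) ^ 2)
    {Ψ : MulChar F ℂ} (hΨ : orderOf Ψ = 8) :
    KK Ψ = - Ψ (-1) * ((p ^ f : ℕ) : ℂ) := by
  have hp : p.Prime := Fact.out
  have hodd : Fintype.card F % 2 = 1 := by
    rw [hF, Nat.pow_mod, Nat.pow_mod (a := p)]
    have : p % 2 = 1 := by omega
    rw [this, one_pow]; norm_num
  have hF2 : ringChar F ≠ 2 := ringChar_ne_two_of_odd hodd
  have hqc : Ψ ^ 4 = qc F := pow_eq_qc hF2 (by norm_num) (by rw [hΨ])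
  have hζ := Complex.isPrimitiveRoot_exp p hp.ne_zero
  have hne : Ψ * qc F ≠ 1 := by
    rw [← hqc, ← pow_succ']
    intro h
    have := orderOf_dvd_of_pow_eq_one h
    rw [hΨ] at this
    omega
  have h1 := KK_mul (ψ := psi hζ.pow_eq_one) hne
  rw [gauss_sign (by omega) hf hF hζ] at h1
  have h2 : Ψ * qc F = Ψ ^ p := by
    rw [← hqc, ← pow_succ', pow_eq_pow_iff_modEq, hΨ]
    unfold Nat.ModEq
    omega
  rw [h2, gauss_frob hζ.pow_eq_one] at h1
  have hΨ1 : Ψ ≠ 1 := by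
    rintro rfl
    rw [orderOf_one] at hΨ
    omega
  have hg : gaussSum Ψ (psi hζ.pow_eq_one) ≠ 0 :=
    gaussSum_ne_zero_of_nontrivial (Nat.cast_ne_zero.mpr Fintype.card_ne_zero) hΨ1 (psi_prim hζ)
  apply mul_left_cancel₀ hg
  rw [h1]; ring

lemma not_four_dvd {Q : ℕ} (hQ4 : Q % 4 = 1) {d : ℕ} (h : 4 ∣ d) : ¬ d ∣ Q + 1 := by
  intro h2
  have := h.trans h2
  omega

lemma part_one {d p : ℕ} (hd : 3 ≤ d) (hp : p.Prime) (hp4 : p % 4 = 1)
    (hpd : ¬ p ∣ d) (hmax : IsMaximalInChar d p) :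
    (d = 4 ∧ p % 8 = 5) ∨ ∃ ℓ n : ℕ, ℓ.Prime ∧ ℓ % 4 = 1 ∧ 1 ≤ n ∧
      (d = ℓ ^ n ∨ d = 2 * ℓ ^ n) ∧ orderOf (p : ZMod ℓ) = ℓ - 1 := by
  classical
  obtain ⟨f, F, _, hf, hcard, hpts⟩ := hmax
  have : Fact p.Prime := ⟨hp⟩
  have hp2 := hp.two_le
  have hfin : Finite F := by
    apply Nat.finite_of_card_ne_zero
    rw [hcard]; positivity
  have : Fintype F := Fintype.ofFinite F
  rw [Nat.card_eq_fintype_card] at hcard
  set q := p ^ f with hq
  have hq2 : p ^ (2 * f) = q ^ 2 := by rw [hq, ← pow_mul, mul_comm]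
  rw [hq2] at hcard hpts
  set Q := q ^ 2 with hQdef
  have hq4 : q % 4 = 1 := by
    rw [hq, Nat.pow_mod, hp4, one_pow]; norm_num
  have hQ4 : Q % 4 = 1 := by
    rw [hQdef, Nat.pow_mod, hq4, one_pow]; norm_num
  have hqp : 1 < q := by rw [hq]; exact Nat.one_lt_pow (by omega) hp.one_lt
  have hQ5 : 5 ≤ Q := by
    have h5 : 5 ≤ q := by omega
    rw [hQdef]; nlinarith
  have hodd : Q % 2 = 1 := by omega
  have hcharF : CharP F p := charP_of_card_eq_prime_pow (f := 2 * f) (by rw [hcard, ← hq2])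
  let _ : Algebra (ZMod p) F := ZMod.algebra F p
  let E : Type := FiniteField.Extension F p 2
  let _ : Field E := inferInstanceAs (Field (FiniteField.Extension F p 2))
  let _ : Algebra F E := inferInstanceAs (Algebra F (FiniteField.Extension F p 2))
  let _ : Algebra (ZMod p) E := inferInstanceAs (Algebra (ZMod p) (FiniteField.Extension F p 2))
  have _ : IsScalarTower (ZMod p) F E :=
    inferInstanceAs (IsScalarTower (ZMod p) F (FiniteField.Extension F p 2))
  have _ : Finite E := inferInstanceAs (Finite (FiniteField.Extension F p 2))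
  have _ : Fintype E := Fintype.ofFinite E
  have hE : Fintype.card E = Q ^ 2 := by
    have h1 := FiniteField.natCard_extension F p 2
    rw [Nat.card_eq_fintype_card (α := F), hcard] at h1
    rw [← h1, ← Nat.card_eq_fintype_card]
  have hF := hF2 hcard hodd
  have hEcard : Fintype.card E - 1 = (Q - 1) * (Q + 1) := by
    rw [card_units_E (F := F) (E := E) hcard hE, Fintype.card_units]
  -- the character sum
  set S : ℂ := ∑ x : F, qc F ((Polynomial.dickson 1 (1 : F) d).eval x) with hS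
  have hSval : S = if d % 2 = 1 then ((d - 1 : ℕ) : ℂ) * q else ((d - 2 : ℕ) : ℂ) * q - 1 := by
    have h1 := card_affine hF (fun x => (Polynomial.dickson 1 (1 : F) d).eval x)
    rw [← hS, hcard] at h1
    unfold numPoints at hpts
    split_ifs at hpts ⊢ with hdo
    · have h2 : Nat.card {P : F × F // P.2 ^ 2 = (Polynomial.dickson 1 (1 : F) d).eval P.1} =
          Q + (d - 1) * q := by
        have h3 : 2 * ((d - 1) / 2) = d - 1 := by omega
        rw [h3] at hpts
        omega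
      rw [h2] at h1
      rw [Nat.cast_add, Nat.cast_mul] at h1
      linear_combination -h1
    · have h2 : Nat.card {P : F × F // P.2 ^ 2 = (Polynomial.dickson 1 (1 : F) d).eval P.1} + 1 =
          Q + (d - 2) * q := by
        have h3 : 2 * ((d - 1) / 2) = d - 2 := by omega
        rw [h3] at hpts
        omega
      have h3 := congrArg (fun n : ℕ => (n : ℂ)) h2
      simp only [Nat.cast_add, Nat.cast_mul, Nat.cast_one] at h3
      linear_combination h3 - h1
  have hext := extremal p hcard hE hQdef hq4 hqp hd (key_sum (E := E) hcard hE hodd d) hSval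
  -- the digit relations
  have hpow : ∀ {K : Type} [Field K] [Fintype K] [DecidableEq K], ringChar K ≠ 2 →
      ∀ (e : ℕ), 1 < e → e ∣ d → e % 2 = 1 → ∀ Ψ : MulChar K ℂ, orderOf Ψ = 4 * e →
      (Ψ ^ 2 * qc K) ^ d = 1 ∧ (Ψ ^ 2 * qc K) ^ 2 ≠ 1 := by
    intro K _ _ _ hK e he hed heo Ψ hΨ
    have hqc : Ψ ^ (2 * e) = qc K := pow_eq_qc hK (by omega) (by rw [hΨ]; ring)
    refine ⟨?_, ?_⟩
    · obtain ⟨c, hc⟩ := hed
      obtain ⟨b, hb⟩ : ∃ b, e = 2 * b + 1 := ⟨e / 2, by omega⟩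
      have h1 : (Ψ ^ 2 * qc K) ^ e = 1 := by
        rw [mul_pow, ← pow_mul, hqc]
        rw [hb, pow_succ, pow_mul, qc_sq, one_pow, one_mul, ← sq, qc_sq]
      rw [hc, pow_mul, h1, one_pow]
    · rw [mul_pow, qc_sq, mul_one, ← pow_mul]
      intro h
      have := orderOf_dvd_of_pow_eq_one h
      rw [hΨ] at this
      have := Nat.le_of_dvd (by norm_num) this
      omega
  obtain ⟨r, hr, hrel⟩ : ∃ r : ℕ, r ≠ 0 ∧ ∀ e : ℕ, 1 < e → e ∣ d → e % 2 = 1 →
      DigitRel e p r := by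
    have h4e : ∀ e N : ℕ, e % 2 = 1 → 4 ∣ N → e ∣ N → 4 * e ∣ N := by
      intro e N he h1 h2
      apply Nat.Coprime.mul_dvd_of_dvd_of_dvd _ h1 h2
      have : Nat.Coprime 2 e := (Nat.coprime_two_left).mpr (Nat.odd_iff.mpr he)
      exact Nat.Coprime.pow_left 2 this
    rcases hext with ⟨hdQ, hall⟩ | ⟨hdQ, hall⟩
    · refine ⟨Module.finrank (ZMod p) F, finrank_ne (p := p) (L := F), ?_⟩
      intro e he hed heo t s ht hs
      refine sums_of_gauss (L := F) (by omega) ?_ ?_ t s ht hs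
      · rw [hcard]
        exact h4e e _ heo (by omega) (hed.trans hdQ)
      · intro ζ hζ Ψ hΨ
        obtain ⟨h1, h2⟩ := hpow hF e he hed heo Ψ hΨ
        exact gauss_of_AA hF (by omega) hcard (by omega) ζ hζ hΨ (hall _ h1 h2)
    · refine ⟨Module.finrank (ZMod p) E, finrank_ne (p := p) (L := E), ?_⟩
      intro e he hed heo t s ht hs
      refine sums_of_gauss (L := E) (by omega) ?_ ?_ t s ht hs
      · rw [hEcard]
        exact Nat.mul_dvd_mul (by omega) (hed.trans hdQ)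
      · intro ζ hζ Ψ hΨ
        obtain ⟨h1, h2⟩ := hpow (hE2 hE hodd) e he hed heo Ψ hΨ
        exact gauss_of_BB (by omega) hcard hE hodd hQdef (by omega) ζ hζ hΨ (hall _ h1 h2)
  -- odd prime factors
  have hprime : ∀ ℓ : ℕ, ℓ.Prime → ℓ ≠ 2 → ℓ ∣ d → ℓ % 4 = 1 ∧ orderOf (p : ZMod ℓ) = ℓ - 1 := by
    intro ℓ hℓ hℓ2 hℓd
    have : Fact ℓ.Prime := ⟨hℓ⟩
    have hℓo : ℓ % 2 = 1 := by
      rcases hℓ.eq_two_or_odd with h | h
      · exact absurd h hℓ2
      · exact h
    have hpℓ : ¬ ℓ ∣ p := by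
      intro h
      have := (Nat.prime_dvd_prime_iff_eq hℓ hp).mp h
      exact hpd (this ▸ hℓd)
    have h1 := hrel ℓ hℓ.one_lt hℓd hℓo
    have h4 : ℓ % 4 = 1 := by
      by_contra h4
      exact no_three_mod_four hℓ (by omega) hp4 hpℓ hr h1
    refine ⟨h4, primitive_of_sums h4 hp4 ?_ hr h1⟩
    rw [Ne, ZMod.natCast_eq_zero_iff]
    exact hpℓ
  have huniq : ∀ ℓ₁ ℓ₂ : ℕ, ℓ₁.Prime → ℓ₂.Prime → ℓ₁ ≠ 2 → ℓ₂ ≠ 2 → ℓ₁ ∣ d → ℓ₂ ∣ d →
      ℓ₁ = ℓ₂ := by
    intro ℓ₁ ℓ₂ h1 h2 h12 h22 h1d h2d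
    by_contra hne
    have : Fact ℓ₁.Prime := ⟨h1⟩
    have : Fact ℓ₂.Prime := ⟨h2⟩
    obtain ⟨h14, h1p⟩ := hprime ℓ₁ h1 h12 h1d
    obtain ⟨h24, h2p⟩ := hprime ℓ₂ h2 h22 h2d
    have hcop : Nat.Coprime ℓ₁ ℓ₂ := (Nat.coprime_primes h1 h2).mpr hne
    have hl1 := h1.two_le
    have hl2 := h2.two_le
    refine no_two_primes hne h14 h24 hp4 h1p h2p hr
      (hrel (ℓ₁ * ℓ₂) (by nlinarith) (hcop.mul_dvd_of_dvd_of_dvd h1d h2d) ?_)
    rw [Nat.mul_mod]
    have e1 : ℓ₁ % 2 = 1 := by omega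
    have e2 : ℓ₂ % 2 = 1 := by omega
    rw [e1, e2]
  by_cases h4d : 4 ∣ d
  · left
    have hnT2 : ¬ d ∣ Q + 1 := not_four_dvd hQ4 h4d
    obtain ⟨hdQ, hall⟩ : d ∣ Q - 1 ∧ ∀ η : MulChar F ℂ, η ^ d = 1 → η ^ 2 ≠ 1 → AA η = 2 * q := by
      rcases hext with h | h
      · exact h
      · exact absurd h.1 hnT2
    have h8Q : 8 ∣ Q - 1 := by
      have hq8 : q % 8 = 1 ∨ q % 8 = 5 := by omega
      have : Q % 8 = 1 := by
        rw [hQdef, Nat.pow_mod]
        rcases hq8 with h | h <;> rw [h]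
      omega
    have key : ∀ Ψ : MulChar F ℂ, orderOf Ψ = 8 → AA (Ψ ^ 2 * qc F) = 2 * q := by
      intro Ψ hΨ
      apply hall
      · obtain ⟨c, hc⟩ := h4d
        have h1 : (Ψ ^ 2 * qc F) ^ 4 = 1 := by
          rw [mul_pow, ← pow_mul, show 2 * 4 = 8 by norm_num, ← hΨ, pow_orderOf_eq_one, one_mul,
            show 4 = 2 * 2 by norm_num, pow_mul, qc_sq, one_pow]
        rw [hc, pow_mul, h1, one_pow]
      · rw [mul_pow, qc_sq, mul_one, ← pow_mul]
        intro h
        have := orderOf_dvd_of_pow_eq_one h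
        rw [hΨ] at this
        omega
    have hrel8 : DigitRel 2 p (Module.finrank (ZMod p) F) := by
      intro t s ht hs
      refine sums_of_gauss (L := F) (by norm_num) (by rw [hcard]; exact h8Q) ?_ t s ht hs
      intro ζ hζ Ψ hΨ
      exact gauss_of_AA hF (by norm_num) hcard (by omega) ζ hζ hΨ (key Ψ (by rw [hΨ]))
    have hp8 : p % 8 = 5 := by
      by_contra h
      exact no_one_mod_eight (by omega) (finrank_ne (p := p) (L := F)) hrel8
    refine ⟨?_, hp8⟩
    obtain ⟨Ψ, hΨ⟩ := exists_order (K := F) (n := 8) (by norm_num) (by rw [hcard]; exact h8Q)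
    have hneg : Ψ (-1) = -1 := by
      have h1 := (KK_of_AA (e := 2) p hF (by norm_num) hcard (by rw [hΨ]) (key Ψ hΨ)).1
      have h2 := KK_order_eight hp8 hf hcard hΨ
      rw [h1] at h2
      have hq0 : (q : ℂ) ≠ 0 := Nat.cast_ne_zero.mpr (by omega)
      have h3 : (q : ℂ) * (Ψ (-1) + 1) = 0 := by linear_combination h2
      have h4 := (mul_eq_zero.mp h3).resolve_left hq0
      linear_combination h4
    have h8d : ¬ 8 ∣ d := by
      intro h
      have h1 : AA Ψ = 2 * q := by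
        apply hall
        · obtain ⟨c, hc⟩ := h
          rw [hc, pow_mul, ← hΨ, pow_orderOf_eq_one, one_pow]
        · intro h2
          have := orderOf_dvd_of_pow_eq_one h2
          rw [hΨ] at this
          omega
      have h2 : AA Ψ = 0 := AA_neg (char_neg_one hF qc_sq (by rw [hcard]; omega)) hneg
      rw [h2] at h1
      have hq0 : (q : ℂ) ≠ 0 := Nat.cast_ne_zero.mpr (by omega)
      exact (mul_ne_zero two_ne_zero hq0) h1.symm
    have hnoodd : ∀ ℓ : ℕ, ℓ.Prime → ℓ ∣ d → ℓ = 2 := by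
      intro ℓ hℓ hℓd
      by_contra hℓ2
      obtain ⟨hℓ4, hord⟩ := hprime ℓ hℓ hℓ2 hℓd
      have h1 : (p : ZMod ℓ) ^ (2 * f) = 1 := by
        have h2 : ℓ ∣ Q - 1 := hℓd.trans hdQ
        have h3 : ((Q - 1 : ℕ) : ZMod ℓ) = 0 := (ZMod.natCast_eq_zero_iff _ _).mpr h2
        rw [Nat.cast_sub (by omega), ← hq2] at h3
        push_cast at h3
        exact sub_eq_zero.mp h3
      have h2 := orderOf_dvd_of_pow_eq_one h1
      rw [hord] at h2
      have hl := hℓ.two_le
      have h3 : 4 ∣ 2 * f := dvd_trans (by omega) h2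
      obtain ⟨c, hc⟩ := h3
      have h4 : p ^ 4 % 16 = 1 := by
        rw [Nat.pow_mod]
        have : p % 16 = 1 ∨ p % 16 = 5 ∨ p % 16 = 9 ∨ p % 16 = 13 := by omega
        rcases this with h | h | h | h <;> rw [h]
      have h16 : 16 ∣ Q - 1 := by
        have : Q % 16 = 1 := by
          rw [← hq2, hc, pow_mul, Nat.pow_mod, h4, one_pow]; norm_num
        omega
      have h5 : Ψ (-1) = 1 := char_neg_one hF (n := 8) (by rw [← hΨ, pow_orderOf_eq_one])
        (by rw [hcard]; exact h16)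
      rw [hneg] at h5
      norm_num at h5
    obtain ⟨c, hc⟩ := h4d
    have hc1 : c = 1 := by
      by_contra hc1
      have h1 := Nat.minFac_prime hc1
      have h2 : c.minFac ∣ d := by
        rw [hc]; exact dvd_mul_of_dvd_right (Nat.minFac_dvd c) 4
      have h3 := hnoodd _ h1 h2
      apply h8d
      have h4 : 2 ∣ c := h3 ▸ Nat.minFac_dvd c
      obtain ⟨b, hb⟩ := h4
      exact ⟨b, by rw [hc, hb]; ring⟩
    rw [hc, hc1]
  · right
    -- `d = d'` or `2 d'` with `d'` odd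
    obtain ⟨d', hd'o, hd'd⟩ : ∃ d', d' % 2 = 1 ∧ (d = d' ∨ d = 2 * d') := by
      by_cases hdo : d % 2 = 1
      · exact ⟨d, hdo, Or.inl rfl⟩
      · refine ⟨d / 2, by omega, Or.inr (by omega)⟩
    have hd'1 : d' ≠ 1 := by omega
    have hdd : d' ∣ d := by
      rcases hd'd with h | h
      · rw [h]
      · rw [h]; exact Dvd.intro_left 2 rfl
    have hℓ := Nat.minFac_prime hd'1
    set ℓ := d'.minFac with hℓdef
    have hℓd' : ℓ ∣ d' := Nat.minFac_dvd d'
    have hodd' : ∀ π : ℕ, π ∣ d' → π ≠ 2 := by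
      rintro π h rfl
      omega
    obtain ⟨hℓ4, hord⟩ := hprime ℓ hℓ (hodd' ℓ hℓd') (hℓd'.trans hdd)
    have hpp : d' = ℓ ^ d'.primeFactorsList.length :=
      Nat.eq_prime_pow_of_unique_prime_dvd (by omega) (fun {π} hπ hπd =>
        huniq π ℓ hπ hℓ (hodd' π hπd) (hodd' ℓ hℓd') (hπd.trans hdd) (hℓd'.trans hdd))
    refine ⟨ℓ, d'.primeFactorsList.length, hℓ, hℓ4, ?_, ?_, hord⟩
    · rcases Nat.eq_zero_or_pos d'.primeFactorsList.length with h | h
      · rw [h, pow_zero] at hpp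
        exact absurd hpp hd'1
      · exact h
    · rw [← hpp]; exact hd'd

lemma qc_gen {K : Type} [Field K] [Fintype K] [DecidableEq K] (hK : ringChar K ≠ 2) {g : Kˣ}
    (hg : ∀ x, x ∈ Subgroup.zpowers g) : qc K (g : K) = -1 := by
  have h4 : qc K (g : K) * qc K (g : K) = 1 := qc_mul_self g.ne_zero
  rcases mul_self_eq_one_iff.mp h4 with h | h
  · exfalso
    apply qc_ne_one hK
    rw [MulChar.eq_iff hg, h, MulChar.one_apply_coe]
  · exact h

lemma part_two {p : ℕ} (hp : p.Prime) (hp8 : p % 8 = 5) : IsMaximalInChar 4 p := by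
  classical
  have : Fact p.Prime := ⟨hp⟩
  have hp2 := hp.two_le
  let F : Type := GaloisField p 2
  let _ : Field F := inferInstanceAs (Field (GaloisField p 2))
  let _ : Algebra (ZMod p) F := inferInstanceAs (Algebra (ZMod p) (GaloisField p 2))
  have _ : Finite F := inferInstanceAs (Finite (GaloisField p 2))
  have _ : Fintype F := Fintype.ofFinite F
  have hNcard : Nat.card F = p ^ 2 := GaloisField.card p 2 (by norm_num)
  have hcard : Fintype.card F = p ^ 2 := by rw [← Nat.card_eq_fintype_card, hNcard]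
  set Q := p ^ 2 with hQdef
  have hQ16 : Q % 16 = 9 := by
    rw [hQdef, Nat.pow_mod]
    have : p % 16 = 5 ∨ p % 16 = 13 := by omega
    rcases this with h | h <;> rw [h]
  have hodd : Q % 2 = 1 := by omega
  have hcharF : CharP F p := charP_of_card_eq_prime_pow (f := 2) hcard
  let E : Type := FiniteField.Extension F p 2
  let _ : Field E := inferInstanceAs (Field (FiniteField.Extension F p 2))
  let _ : Algebra F E := inferInstanceAs (Algebra F (FiniteField.Extension F p 2))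
  let _ : Algebra (ZMod p) E := inferInstanceAs (Algebra (ZMod p) (FiniteField.Extension F p 2))
  have _ : IsScalarTower (ZMod p) F E :=
    inferInstanceAs (IsScalarTower (ZMod p) F (FiniteField.Extension F p 2))
  have _ : Finite E := inferInstanceAs (Finite (FiniteField.Extension F p 2))
  have _ : Fintype E := Fintype.ofFinite E
  have hE : Fintype.card E = Q ^ 2 := by
    have h1 := FiniteField.natCard_extension F p 2
    rw [Nat.card_eq_fintype_card (α := F), hcard] at h1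
    rw [← h1, ← Nat.card_eq_fintype_card]
  have hF := hF2 hcard hodd
  have hEE := hE2 hE hodd
  have hEcard : Fintype.card E - 1 = (Q - 1) * (Q + 1) := by
    rw [card_units_E (F := F) (E := E) hcard hE, Fintype.card_units]
  have hKK : ∀ Ψ : MulChar F ℂ, orderOf Ψ = 8 → KK Ψ = p := by
    intro Ψ hΨ
    have h1 := KK_order_eight (f := 1) hp8 le_rfl (by rw [hcard, pow_one]) hΨ
    obtain ⟨g, hg⟩ := IsCyclic.exists_generator (α := Fˣ)
    have h2 : Ψ (-1) = -1 := by
      obtain ⟨c, hc⟩ : ∃ c, 2 * c = Fintype.card F - 1 := ⟨(Fintype.card F - 1) / 2, by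
        rw [hcard]; omega⟩
      have hc8 : c % 8 = 4 := by rw [hcard] at hc; omega
      rw [← neg_one_eq hF hg hc, Units.val_pow_eq_pow_val, map_pow, ← MulChar.pow_apply_coe]
      have h3 : Ψ ^ c = Ψ ^ 4 := by
        rw [pow_eq_pow_iff_modEq, hΨ]
        unfold Nat.ModEq
        omega
      rw [h3, pow_eq_qc hF (by norm_num) (by rw [hΨ]), qc_gen hF hg]
    rw [h1, h2, pow_one]; ring
  obtain ⟨Ψ, hΨ⟩ := exists_order (K := F) (n := 8) (by norm_num) (by rw [hcard]; omega)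
  have hqc : Ψ ^ 4 = qc F := pow_eq_qc hF (by norm_num) (by rw [hΨ])
  have hordk : ∀ k : ℕ, Nat.Coprime 8 k → orderOf (Ψ ^ k) = 8 := by
    intro k hk
    rw [Nat.Coprime.orderOf_pow (by rw [hΨ]; exact hk), hΨ]
  set θ := Ψ ^ 6 with hθdef
  have hθ : orderOf θ = 4 := by
    rw [hθdef, orderOf_pow, hΨ]; norm_num
  obtain ⟨θ2, hθ2⟩ := exists_order (K := E) (n := 2) (by norm_num) (by
    rw [hEcard]
    exact dvd_mul_of_dvd_left (by omega) _)
  have e1 := T1_sum (E := E) hcard (d := 4) (d1 := 4)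
    (Nat.gcd_eq_right (by omega)) hθ
  have e2 := T2_sum (F := F) hcard hE (d := 4) (d2 := 2) (by
    have h1 : Nat.gcd (Q + 1) 4 = 2 := by
      rw [Nat.gcd_comm, Nat.gcd_rec]
      have : (Q + 1) % 4 = 2 := by omega
      rw [this]; norm_num
    exact h1) hθ2
  have e0 := zero_of_sums (F := F) (E := E) hcard hE hodd
  have hθ2' : θ2 = qc E := by
    have := pow_eq_qc hEE (n := 1) (by norm_num) (θ := θ2) (by rw [hθ2])
    rwa [pow_one] at this
  have hp0 : 0 < p := hp.pos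
  have hA1 : AA θ = 2 * p := by
    have h1 : θ = Ψ ^ 2 * qc F := by rw [← hqc, ← pow_add]
    have h2 : Ψ * qc F = Ψ ^ 5 := by rw [← hqc, ← pow_succ']
    rw [h1, AA_sq hF, h2, hKK Ψ hΨ, hKK _ (hordk 5 (by norm_num))]; ring
  have hA3 : AA (θ ^ 3) = 2 * p := by
    have h1 : θ ^ 3 = (Ψ ^ 3) ^ 2 * qc F := by
      rw [hθdef, ← hqc, ← pow_mul, ← pow_mul, ← pow_add, pow_eq_pow_iff_modEq, hΨ]
      decide
    have h2 : Ψ ^ 3 * qc F = Ψ ^ 7 := by rw [← hqc, ← pow_add]
    rw [h1, AA_sq hF, h2, hKK _ (hordk 3 (by norm_num)), hKK _ (hordk 7 (by norm_num))]; ring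
  have hA2 : AA (θ ^ 2) = -2 := by
    have h1 : θ ^ 2 = qc F := pow_eq_qc hF (by norm_num) (by rw [hθ])
    rw [h1, AA_qc hF]
  rw [sum_range_succ, sum_range_succ, sum_range_succ, sum_range_one, pow_zero, pow_one, hA1, hA2,
    hA3] at e1
  rw [sum_range_succ, sum_range_one, pow_zero, pow_one, hθ2',
    BB_qc p hcard hE hodd hQdef hp0] at e2
  have hkey := key_sum (E := E) hcard hE hodd 4
  set S : ℂ := ∑ x : F, qc F ((Polynomial.dickson 1 (1 : F) 4).eval x) with hS
  have hQ5 : 5 ≤ Q := by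
    have : 9 ≤ Q := by omega
    omega
  have hN0 : ((Q - 1 : ℕ) : ℂ) ≠ 0 := Nat.cast_ne_zero.mpr (by omega)
  have hSval : S = 2 * p - 1 := by
    apply mul_left_cancel₀ (mul_ne_zero two_ne_zero hN0)
    linear_combination ((Q - 1 : ℕ) : ℂ) * hkey + ((Q - 1 : ℕ) : ℂ) * e1 + e2 + e0
  have h1 := card_affine hF (fun x => (Polynomial.dickson 1 (1 : F) 4).eval x)
  rw [← hS, hcard, hSval] at h1
  have h2 : Nat.card {P : F × F // P.2 ^ 2 = (Polynomial.dickson 1 (1 : F) 4).eval P.1} + 1 =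
      Q + 2 * p := by
    have h3 : ((Nat.card {P : F × F // P.2 ^ 2 = (Polynomial.dickson 1 (1 : F) 4).eval P.1} + 1
        : ℕ) : ℂ) = ((Q + 2 * p : ℕ) : ℂ) := by
      rw [Nat.cast_add, h1]
      push_cast
      ring
    exact Nat.cast_injective h3
  refine ⟨1, F, inferInstance, le_rfl, by rw [hNcard], ?_⟩
  unfold numPoints
  rw [if_neg (by norm_num)]
  have h3 : 2 * ((4 - 1) / 2) * p ^ 1 = 2 * p := by norm_num
  rw [h3, show p ^ (2 * 1) = Q by rw [hQdef]]
  omega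

/-- **Maximal Chebyshev hyperelliptic curves in characteristic `p ≡ 1 (mod 4)`.**
(1) Let `d ≥ 3` and let `p ≡ 1 (mod 4)` be a prime not dividing `d`. If `H_d` is maximal in
characteristic `p` then either `d = 4` (and `p ≡ 5 (mod 8)`), or `d = ℓ ^ n` or `d = 2 ℓ ^ n` for a
prime `ℓ ≡ 1 (mod 4)` and `n ≥ 1` (and `p` is a primitive root modulo `ℓ`).
(2) In particular, if moreover `d` is odd, then `d` is a power of a prime `≡ 1 (mod 4)`.
(3) `H_4` is maximal in every characteristic `p ≡ 5 (mod 8)`. -/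
theorem result :
    (∀ d p : ℕ, 3 ≤ d → p.Prime → p % 4 = 1 → ¬ p ∣ d → IsMaximalInChar d p →
      (d = 4 ∧ p % 8 = 5) ∨ ∃ ℓ n : ℕ, ℓ.Prime ∧ ℓ % 4 = 1 ∧ 1 ≤ n ∧
        (d = ℓ ^ n ∨ d = 2 * ℓ ^ n) ∧ orderOf (p : ZMod ℓ) = ℓ - 1) ∧
    (∀ d p : ℕ, 3 ≤ d → d % 2 = 1 → p.Prime → p % 4 = 1 → ¬ p ∣ d → IsMaximalInChar d p →
      ∃ ℓ n : ℕ, ℓ.Prime ∧ ℓ % 4 = 1 ∧ 1 ≤ n ∧ d = ℓ ^ n) ∧
    (∀ p : ℕ, p.Prime → p % 8 = 5 → IsMaximalInChar 4 p) := by
  refine ⟨fun d p hd hp hp4 hpd hmax => part_one hd hp hp4 hpd hmax, ?_,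
    fun p hp hp8 => part_two hp hp8⟩
  intro d p hd hdo hp hp4 hpd hmax
  rcases part_one hd hp hp4 hpd hmax with h | ⟨ℓ, n, h1, h2, h3, h4, _⟩
  · omega
  · refine ⟨ℓ, n, h1, h2, h3, ?_⟩
    rcases h4 with h | h
    · exact h
    · omega

end Pool.Agent.Results.MP_b95a42_nt.Classification
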